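import Pool.Agent.Helper42.TN.GoalsA
import Pool.Agent.Helper93.PM.KEYW

/-!
# Project TN (MP_a41896_nt): the key inequality on the hypersurfaces (adapted from `Helper93/PM/KEYW.lean`)
-/

set_option autoImplicit false

open MvPolynomial

namespace Pool.Agent.Helper91.TN

open WeierstrassCurve Height
open Pool.Agent.Helper29.BL Pool.Agent.Helper92.Ru Pool.Agent.Helper42.SG
open Pool.Agent.Helper77.SGC (N0)
open Pool.Agent.Helper76.SGC (NFB)
open Pool.Agent.Helper68.VN hiding xs Good nz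
open Pool.Agent.Helper19.PM
open Pool.Agent.Helper42.TN
open Pool.Agent.Helper93.PM (one_block prodC)

noncomputable section

/-- `c (N+1)^(m-1) ≤ (c 2^m)^(N+1)` -/
lemma card_bd (c N m : ℕ) : c * (N + 1) ^ (m - 1) ≤ (c * 2 ^ m) ^ (N + 1) := by
  rcases Nat.eq_zero_or_pos c with h | h
  · subst h
    simp
  · rw [mul_pow]
    refine Nat.mul_le_mul ?_ ?_
    · exact Nat.le_self_pow (by omega) c
    · have h1 : N + 1 ≤ 2 ^ (N + 1) := Nat.lt_two_pow_self.le
      calc (N + 1) ^ (m - 1) ≤ (2 ^ (N + 1)) ^ (m - 1) := Nat.pow_le_pow_left h1 _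
        _ ≤ (2 ^ (N + 1)) ^ m := Nat.pow_le_pow_right (by positivity) (by omega)
        _ = (2 ^ m) ^ (N + 1) := by rw [← pow_mul, ← pow_mul, mul_comm]

/-- Goal KEYN. -/
theorem t_KEYN (h1 : EXPN) (h2 : VANN) (h4 : BRNN) (h6 : CNTB) (h3 : NFB) :
    Pool.Agent.Helper42.TN.KEYN := by
  intro K _ _ σ _ _ W B D c hB J w n M k0 hn hM
  obtain ⟨C, hC1, hC⟩ := h6 σ n M 1 (c * 2 ^ Fintype.card σ) hn
  have hB1 : ∀ v, 1 ≤ B v := hB.one_le
  refine ⟨fun v => cst v C * B v ^ ((M + 1) * Fintype.card σ), ⟨?_, ?_⟩, ?_⟩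
  · intro v
    exact one_le_mul_of_one_le_of_one_le (one_le_cst v hC1) (one_le_pow₀ (hB1 v))
  · have h8 : FS (K := K) (fun v => Real.log (cst v C) +
          (((M + 1) * Fintype.card σ : ℕ) : ℝ) * Real.log (B v)) :=
      (FS_log_cst C).add (hB.fin.const_mul _)
    refine h8.mono fun v _ hv => ?_
    have c0 : cst v C ≠ 0 := (cst_pos v hC1).ne'
    have b0 : B v ≠ 0 := (lt_of_lt_of_le one_pos (hB1 v)).ne'
    rw [Real.log_mul c0 (pow_ne_zero _ b0), Real.log_pow]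
    exact hv
  intro g f e d G S T _ gr E r U ν x0 ψ0 H hG hS hE hEN hR cc hcc v A _ _ N hN X Ψ a ρ s b hOn hg
    ha hb hρ hX hΨ hψ0 hf hs lam
  obtain ⟨n0, n1, npow, nprod, nsum⟩ := h3 K v A N hN
  have hm : ∀ i, 1 ≤ Mv v (x0 i) := fun i => one_le_Mv v _
  have b0 : 0 ≤ b := le_trans zero_le_one hb
  have α0 : Ix σ n M 1 e := (fun j i => (⟨0, by positivity⟩, ⟨0, by omega⟩), fun _ => ⟨0, by omega⟩)
  have hs0 : 0 ≤ s := le_trans (v.nonneg _) (hs α0)
  set m := Fintype.card σ with hmdef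
  have hkB : 0 ≤ keyV v M 1 k0 e a ρ x0 := by
    unfold keyV
    refine mul_nonneg (Finset.prod_nonneg fun j _ => mul_nonneg (pow_nonneg
      (Finset.prod_nonneg fun i _ => le_trans zero_le_one (ha j i)) _) (pow_nonneg (hρ j).1.le _))
      (Finset.prod_nonneg fun i _ => pow_nonneg (le_trans zero_le_one (hm i)) _)
  set NN : ℝ := (Nat.card (Ix σ n M 1 e) : ℝ) *
    ∏ j : Fin n, ((2 * M + 1 : ℝ) * (N0 M (e j) + 1)) ^ m with hNN
  have hcard1 : (1 : ℝ) ≤ NN := by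
    have hc0 : 1 ≤ Nat.card (Ix σ n M 1 e) := by
      rw [Nat.card_eq_fintype_card]
      exact Fintype.card_pos_iff.2 ⟨α0⟩
    have hc1 : (1 : ℝ) ≤ (Nat.card (Ix σ n M 1 e) : ℝ) := by exact_mod_cast hc0
    refine one_le_mul_of_one_le_of_one_le hc1 ?_
    refine Finset.prod_induction _ (fun x : ℝ => 1 ≤ x)
      (fun _ _ h h' => one_le_mul_of_one_le_of_one_le h h') le_rfl fun j _ => one_le_pow₀ ?_
    have g1 : (0 : ℝ) ≤ M := Nat.cast_nonneg M
    have g2 : (0 : ℝ) ≤ N0 M (e j) := Nat.cast_nonneg _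
    exact one_le_mul_of_one_le_of_one_le (by linarith) (by linarith)
  set Q := cst v NN with hQ
  have hQ0 : 0 ≤ Q := (cst_pos v hcard1).le
  set P := ∏ j : Fin n, G j v ^ (N0 M (e j) + 1) * B v ^ (4 ^ e j * (M + 1) * m) with hP
  have hP0 : 0 ≤ P := Finset.prod_nonneg fun j _ => mul_nonneg
    (pow_nonneg (le_trans zero_le_one (hG j v)) _) (pow_nonneg (le_trans zero_le_one (hB1 v)) _)
  set P' := ∏ j : Fin n, G j v ^ (N0 M (e j) + 1) with hP'
  have hP0' : 0 ≤ P' := Finset.prod_nonneg fun j _ => pow_nonneg (le_trans zero_le_one (hG j v)) _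
  set T0 := Q * s * (P * P') * (b ^ (2 * n * m) * keyV v M 1 k0 e a ρ x0) with hT0
  have hT : 0 ≤ T0 := by positivity
  rw [h1 K σ W B D c n M e d G S T gr E r g hS hE cc x0 ψ0 A X Ψ hOn hg lam]
  have hψN : ∀ i, N (cn A ψ0 i) (b * Mv v (x0 i) ^ 2) := fun i =>
    hN.mono _ _ _ (hN.const (ψ0 i)) (hψ0 i)
  -- every term
  have hterm : ∀ μ : Fin n → σ → Fin 2, ∀ t : ∀ j, T j,
      N ((∏ j, ((∏ i, (Ψ j i * cn A ψ0 i) ^ (μ j i).val) * aeval (X j) (E j (t j)))) *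
        algebraMap K A (BrB S n M 1 e T r cc x0 lam μ t)) T0 := by
    intro μ t
    by_cases hbad : ∃ j, gr j (t j) < k0 * 4 ^ e j
    · rw [h2 K σ n M k0 e S T gr r U ν x0 H hR cc hcc lam μ t hbad, map_zero, mul_zero]
      exact hN.mono 0 0 T0 n0 hT
    push Not at hbad
    have hbr := h4 K σ W B D n M hB1 e G S T r hG hS (fun j v t s => (hE j).bd v t s) cc x0 v s
      hs0 hs lam μ t
    have hpN : N (∏ j, ((∏ i, (Ψ j i * cn A ψ0 i) ^ (μ j i).val) * aeval (X j) (E j (t j))))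
        (∏ j, ((∏ i, (b * a j i ^ 2 * (b * Mv v (x0 i) ^ 2)) ^ (μ j i).val) *
          (G j v ^ (N0 M (e j) + 1) * (∏ i, a j i ^ (N0 M (e j))) * ρ j ^ gr j (t j)))) := by
      refine nprod _ Finset.univ _ _ fun j _ => hN.mul _ _ _ _ ?_ ?_
      · exact nprod _ Finset.univ _ _ fun i _ => npow _ _ (hN.mul _ _ _ _ (hΨ j i) (hψN i)) _
      · exact hEN j v A N hN (X j) (a j) (ρ j) (ha j) (hρ j).1 (hρ j).2 (hX j) (hf j) (t j)
    refine hN.mono _ _ _ (hN.mul _ _ _ _ hpN (hN.mono _ _ _ (hN.const _) hbr)) ?_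
    have hbl := Finset.prod_le_prod (s := (Finset.univ : Finset (Fin n)))
      (fun j _ => ?_) fun j _ => one_block (ha j) hb hm (hρ j).1 (hρ j).2
      (pow_nonneg (le_trans zero_le_one (hG j v)) (N0 M (e j) + 1)) (N0 M (e j)) M (k0 * 4 ^ e j)
      (gr j (t j)) hM (hbad j) (μ j)
    swap
    · have p1 : ∀ i, 0 ≤ a j i := fun i => le_trans zero_le_one (ha j i)
      have p2 : ∀ i, 0 ≤ Mv v (x0 i) := fun i => le_trans zero_le_one (hm i)
      have p3 : 0 ≤ G j v := le_trans zero_le_one (hG j v)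
      have p4 : 0 ≤ ρ j := (hρ j).1.le
      refine mul_nonneg (mul_nonneg (Finset.prod_nonneg fun i _ => ?_) (mul_nonneg (mul_nonneg
        (pow_nonneg p3 _) (Finset.prod_nonneg fun i _ => pow_nonneg (p1 i) _)) (pow_nonneg p4 _)))
        (Finset.prod_nonneg fun i _ => pow_nonneg (p2 i) _)
      exact pow_nonneg (mul_nonneg (mul_nonneg b0 (sq_nonneg _)) (mul_nonneg b0 (sq_nonneg _))) _
    have hbl' : (∏ j, ((∏ i, (b * a j i ^ 2 * (b * Mv v (x0 i) ^ 2)) ^ (μ j i).val) *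
          (G j v ^ (N0 M (e j) + 1) * (∏ i, a j i ^ (N0 M (e j))) * ρ j ^ gr j (t j)))) *
          (∏ j, ∏ i, Mv v (x0 i) ^ (2 * M - 2 * (μ j i).val)) ≤
        P' * ∏ j : Fin n, (b ^ (2 * Fintype.card σ) * ((∏ i, a j i) ^ (N0 M (e j) + 2) *
        ρ j ^ (k0 * 4 ^ e j)) * ∏ i, Mv v (x0 i) ^ (2 * M)) := by
      rw [hP', ← Finset.prod_mul_distrib, ← Finset.prod_mul_distrib]
      exact hbl
    have hbr2 : ∏ j : Fin n, (b ^ (2 * Fintype.card σ) * ((∏ i, a j i) ^ (N0 M (e j) + 2) *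
        ρ j ^ (k0 * 4 ^ e j)) * ∏ i, Mv v (x0 i) ^ (2 * M)) =
        b ^ (2 * n * m) * ((∏ j, ((∏ i, a j i) ^ (2 * 4 ^ e j * M + 4 ^ e j + 2) *
          ρ j ^ (k0 * 4 ^ e j))) * ∏ i, Mv v (x0 i) ^ (2 * n * M)) := by
      rw [Finset.prod_mul_distrib, Finset.prod_mul_distrib, Finset.prod_const, Finset.prod_const,
        Finset.card_univ, Fintype.card_fin, ← pow_mul, ← Finset.prod_pow]
      have q1 : 2 * Fintype.card σ * n = 2 * n * m := by rw [hmdef]; ring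
      have q2 : ∏ i, (Mv v (x0 i) ^ (2 * M)) ^ n = ∏ i, Mv v (x0 i) ^ (2 * n * M) := by
        refine Finset.prod_congr rfl fun i _ => ?_
        rw [← pow_mul]
        congr 1
        ring
      rw [q1, q2, mul_assoc]
      rfl
    rw [hbr2] at hbl'
    have hMd : 0 ≤ ∏ i, Mv v (x0 i) ^ 1 :=
      Finset.prod_nonneg fun i _ => pow_nonneg (le_trans zero_le_one (hm i)) _
    have hkey : keyV v M 1 k0 e a ρ x0 = ((∏ j, ((∏ i, a j i) ^ (2 * 4 ^ e j * M + 4 ^ e j + 2) *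
          ρ j ^ (k0 * 4 ^ e j))) * ∏ i, Mv v (x0 i) ^ (2 * n * M)) * ∏ i, Mv v (x0 i) ^ 1 := by
      have hsp : ∏ i, Mv v (x0 i) ^ (2 * n * M + 1) =
          (∏ i, Mv v (x0 i) ^ (2 * n * M)) * ∏ i, Mv v (x0 i) ^ 1 := by
        rw [← Finset.prod_mul_distrib]
        exact Finset.prod_congr rfl fun i _ => pow_add _ _ _
      unfold keyV
      rw [hsp]
      ring
    have hfin := mul_le_mul_of_nonneg_left (mul_le_mul_of_nonneg_right hbl' hMd)
      (show 0 ≤ Q * s * P by positivity)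
    rw [hT0, hkey]
    refine le_trans (le_of_eq ?_) (le_trans hfin (le_of_eq ?_))
    · ring
    · ring
  have hinner : ∀ μ : Fin n → σ → Fin 2, N (∑ t : ∀ j, T j,
      (∏ j, ((∏ i, (Ψ j i * cn A ψ0 i) ^ (μ j i).val) * aeval (X j) (E j (t j)))) *
        algebraMap K A (BrB S n M 1 e T r cc x0 lam μ t))
      (cst v ((Finset.univ : Finset (∀ j, T j)).card : ℝ) * T0) := fun μ =>
    nsum _ _ _ _ hT fun t _ => hterm μ t
  have hct : 0 ≤ cst v ((Finset.univ : Finset (∀ j, T j)).card : ℝ) := by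
    unfold cst
    split_ifs
    · exact zero_le_one
    · exact Nat.cast_nonneg _
  have hout := nsum _ (Finset.univ : Finset (Fin n → σ → Fin 2)) _ _
    (mul_nonneg hct hT) fun μ _ => hinner μ
  refine hN.mono _ _ _ hout ?_
  have hcst : cst v ((Finset.univ : Finset (Fin n → σ → Fin 2)).card : ℝ) *
      cst v ((Finset.univ : Finset (∀ j, T j)).card : ℝ) * Q ≤ cst v C ^ sqB e := by
    rw [hQ, ← cst_mul, ← cst_mul, ← cst_pow]
    have := hC e T fun j => ((hE j).card).trans (card_bd c _ _)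
    rw [Nat.card_eq_fintype_card, Nat.card_eq_fintype_card] at this
    rw [Finset.card_univ, Finset.card_univ]
    exact cst_mono v this
  have hPP := prodC M m e (hB1 v) (fun j => hG j v)
  rw [← hP, ← hP'] at hPP
  have hbk : 0 ≤ b ^ (2 * n * m) * keyV v M 1 k0 e a ρ x0 := by positivity
  have hcC : 0 ≤ cst v C ^ sqB e := pow_nonneg (cst_pos v hC1).le _
  calc _ = (cst v ((Finset.univ : Finset (Fin n → σ → Fin 2)).card : ℝ) *
      cst v ((Finset.univ : Finset (∀ j, T j)).card : ℝ) * Q) *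
        (s * (P * P') * (b ^ (2 * n * m) * keyV v M 1 k0 e a ρ x0)) := by
        rw [hT0]; ring
    _ ≤ cst v C ^ sqB e * (s * (P * P') * (b ^ (2 * n * m) * keyV v M 1 k0 e a ρ x0)) :=
        mul_le_mul_of_nonneg_right hcst (by positivity)
    _ = (cst v C ^ sqB e * s * (b ^ (2 * n * m) * keyV v M 1 k0 e a ρ x0)) * (P * P') := by ring
    _ ≤ (cst v C ^ sqB e * s * (b ^ (2 * n * m) * keyV v M 1 k0 e a ρ x0)) *
        ((B v ^ ((M + 1) * m)) ^ sqB e * ∏ j, G j v ^ ((4 * M + 4) * 4 ^ e j)) :=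
        mul_le_mul_of_nonneg_left hPP (by positivity)
    _ = _ := by
        rw [mul_pow]; ring

end

end Pool.Agent.Helper91.TN
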