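import Pool.Agent.Helper92.TN.GoalsD

/-!
# Project TN (MP_a41896_nt), packet DGF: first properties of the normalised degree
-/

set_option autoImplicit false

namespace Pool.Agent.Helper91.TN.DGF

open Pool.Agent.Helper92.TN

/-- exchange -/
theorem exch (k M : Type) [Field k] [Field M] [Algebra k M] (t f : M) (hf : Transcendental k f)
    (h : IsAlgebraic (IntermediateField.adjoin k {t}) f) :
    IsAlgebraic (IntermediateField.adjoin k {f}) t := by
  by_contra hcon
  rw [IntermediateField.isAlgebraic_adjoin_iff] at h hcon
  let x : Bool → M := fun b => if b then t else f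
  have himg : x '' {true}ᶜ = {f} := by
    ext z
    constructor
    · rintro ⟨b, hb, rfl⟩
      cases b
      · simp [x]
      · exact absurd rfl hb
    · intro hz
      rw [Set.mem_singleton_iff] at hz
      exact ⟨false, by simp, by simp [x, hz]⟩
  have himg2 : x '' {true} = {t} := by
    simp [x]
  have hind : AlgebraicIndependent k x := by
    rw [AlgebraicIndependent.iff_transcendental_adjoin_image true]
    refine ⟨?_, ?_⟩
    · haveI : Unique {j : Bool // j ≠ true} :=
        ⟨⟨⟨false, by simp⟩⟩, fun j => Subtype.ext (by simpa using j.2)⟩
      rw [algebraicIndependent_unique_type_iff]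
      have : x ((default : {j : Bool // j ≠ true}) : Bool) = f := by
        have h1 : ((default : {j : Bool // j ≠ true}) : Bool) = false := by
          have := (default : {j : Bool // j ≠ true}).2
          simpa using this
        rw [h1]
        simp [x]
      rw [this]
      exact hf
    · rw [himg]
      have : x true = t := by simp [x]
      rw [this]
      exact hcon
  have h2 := hind.transcendental_adjoin (s := {true}) (i := false) (by simp)
  rw [himg2] at h2
  have : x false = f := by simp [x]
  rw [this] at h2
  exact h2 h

theorem t : DGF := by
  intro k M _ _ _ t f ht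
  refine ⟨div_nonneg (Nat.cast_nonneg _) (Nat.cast_nonneg _), ?_, ?_, ?_⟩
  · intro hf
    have h1 : ¬ IsIntegral (IntermediateField.adjoin k {f}) t := by
      intro h2
      haveI : Algebra.IsAlgebraic k (IntermediateField.adjoin k {f}) := by
        rw [IntermediateField.isAlgebraic_adjoin_iff_isAlgebraic]
        intro z hz
        rw [Set.mem_singleton_iff] at hz
        rw [hz]
        exact hf
      exact ht (h2.isAlgebraic.restrictScalars k)
    unfold dg
    rw [minpoly.eq_zero h1]
    simp
  · have h1 : (minpoly (IntermediateField.adjoin k {t}) t).natDegree = 1 := by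
      rw [minpoly.natDegree_eq_one_iff]
      exact ⟨⟨t, IntermediateField.mem_adjoin_simple_self k t⟩, rfl⟩
    unfold dg
    rw [h1]
    simp
  · intro hf hft
    have h2 := exch k M t f hft hf
    exact div_pos (Nat.cast_pos.2 (minpoly.natDegree_pos h2.isIntegral))
      (Nat.cast_pos.2 (minpoly.natDegree_pos hf.isIntegral))

end Pool.Agent.Helper91.TN.DGF
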