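import Pool.Agent.Helper92.TN.GoalsW
import Pool.Agent.Helper12.SGB.All

/-!
# Project TN (MP_a41896_nt), packet NZPP: non-vanishing from the tower
-/

set_option autoImplicit false

open MvPolynomial

namespace Pool.Agent.Helper91.TN.NZPP

open WeierstrassCurve
open Pool.Agent.Helper29.BL Pool.Agent.Helper92.Ru Pool.Agent.Helper42.SG
open Pool.Agent.Helper60.T3 (WL IP zd)
open Pool.Agent.Helper42.TN (SupN)
open Pool.Agent.Helper68.VN (Ix P0B mapS OnB PB blkB)
open Pool.Agent.Helper92.TN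

/-- the algebraic part: linear independence of the monomials `X^l V^m` -/
theorem alg {K Ω σ : Type} [Field K] [Field Ω] [Algebra K Ω] [Fintype σ] [DecidableEq σ]
    {n M h0 : ℕ} (a : σ) (e N : Fin n → ℕ) (X V : Fin n × σ → Ω)
    (hN : ∀ j l, l * h0 < 4 ^ e j → l ≤ N j)
    (hL : LIm (IntermediateField.adjoin K (Set.range V) : Set Ω)
      (fun h : Fin n × {i : σ // i ≠ a} => X (h.1, h.2.1)) (fun h => N h.1))
    (hA : AlgebraicIndependent K V) (c : Ix σ n M 1 e → K)
    (hc : ∀ α, c α ≠ 0 → SupN a h0 α)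
    (h : ∑ α : Ix σ n M 1 e, algebraMap K Ω (c α) *
      (∏ j, ∏ i, X (j, i) ^ (α.1 j i).1.val * V (j, i) ^ (α.1 j i).2.val) = 0) : c = 0 := by
  classical
  set key : Ix σ n M 1 e → (Fin n × {i : σ // i ≠ a} → ℕ) :=
    fun α h => (α.1 h.1 h.2.1).1.val with hkey
  set mm : Ix σ n M 1 e → (Fin n × σ → ℕ) := fun α h => (α.1 h.1 h.2).2.val with hmm
  set s : Finset (Ix σ n M 1 e) := Finset.univ.filter (fun α => c α ≠ 0) with hs
  set C : (Fin n × {i : σ // i ≠ a} → ℕ) → Ω := fun l =>
    ∑ α ∈ s.filter (fun α => key α = l), algebraMap K Ω (c α) * ∏ h, V h ^ mm α h with hC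
  have hVmem : ∀ h, V h ∈ IntermediateField.adjoin K (Set.range V) := fun h =>
    IntermediateField.subset_adjoin K _ ⟨h, rfl⟩
  have hCmem : ∀ l, C l ∈ (IntermediateField.adjoin K (Set.range V) : Set Ω) := by
    intro l
    refine sum_mem fun α _ => mul_mem (IntermediateField.algebraMap_mem _ _) ?_
    exact prod_mem fun h _ => pow_mem (hVmem h) _
  have hbox : ∀ α ∈ s, key α ∈
      Fintype.piFinset (fun h : Fin n × {i : σ // i ≠ a} => Finset.range (N h.1 + 1)) := by
    intro α hα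
    have h1 := hc α (Finset.mem_filter.1 hα).2
    rw [Fintype.mem_piFinset]
    intro h
    rw [Finset.mem_range]
    exact Nat.lt_succ_of_le (hN _ _ ((h1 h.1).2 h.2.1))
  have hterm : ∀ α ∈ s, algebraMap K Ω (c α) *
      (∏ j, ∏ i, X (j, i) ^ (α.1 j i).1.val * V (j, i) ^ (α.1 j i).2.val) =
      (algebraMap K Ω (c α) * ∏ h, V h ^ mm α h) *
        ∏ h : Fin n × {i : σ // i ≠ a}, X (h.1, h.2.1) ^ key α h := by
    intro α hα
    have h1 := hc α (Finset.mem_filter.1 hα).2
    have e1 : ∏ j, ∏ i, X (j, i) ^ (α.1 j i).1.val * V (j, i) ^ (α.1 j i).2.val =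
        (∏ j, ∏ i, X (j, i) ^ (α.1 j i).1.val) * ∏ j, ∏ i, V (j, i) ^ (α.1 j i).2.val := by
      rw [← Finset.prod_mul_distrib]
      exact Finset.prod_congr rfl fun j _ => Finset.prod_mul_distrib
    have e2 : ∏ j, ∏ i, V (j, i) ^ (α.1 j i).2.val = ∏ h, V h ^ mm α h := by
      rw [Fintype.prod_prod_type]
    have e3 : ∏ j, ∏ i, X (j, i) ^ (α.1 j i).1.val =
        ∏ h : Fin n × {i : σ // i ≠ a}, X (h.1, h.2.1) ^ key α h := by
      rw [Fintype.prod_prod_type]
      refine Finset.prod_congr rfl fun j _ => ?_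
      have e4 : ∏ i, X (j, i) ^ (α.1 j i).1.val =
          ∏ i ∈ Finset.univ.filter (fun i => i ≠ a), X (j, i) ^ (α.1 j i).1.val := by
        symm
        refine Finset.prod_subset (Finset.filter_subset _ _) fun i _ hi => ?_
        have : i = a := by
          by_contra hne
          exact hi (Finset.mem_filter.2 ⟨Finset.mem_univ _, hne⟩)
        rw [this, (h1 j).1, pow_zero]
      rw [e4]
      exact Finset.prod_subtype _ (fun i => by simp) _
    rw [e1, e2, e3]
    ring
  have hsum : ∑ l ∈ Fintype.piFinset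
      (fun h : Fin n × {i : σ // i ≠ a} => Finset.range (N h.1 + 1)),
      C l * ∏ h : Fin n × {i : σ // i ≠ a}, X (h.1, h.2.1) ^ l h = 0 := by
    have e1 : ∀ l, C l * ∏ h : Fin n × {i : σ // i ≠ a}, X (h.1, h.2.1) ^ l h =
        ∑ α ∈ s.filter (fun α => key α = l), (algebraMap K Ω (c α) * ∏ h, V h ^ mm α h) *
          ∏ h : Fin n × {i : σ // i ≠ a}, X (h.1, h.2.1) ^ key α h := by
      intro l
      rw [hC]
      simp only
      rw [Finset.sum_mul]
      refine Finset.sum_congr rfl fun α hα => ?_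
      rw [(Finset.mem_filter.1 hα).2]
    rw [Finset.sum_congr rfl fun l _ => e1 l, Finset.sum_fiberwise_of_maps_to hbox,
      ← Finset.sum_congr rfl hterm, ← h]
    refine Finset.sum_subset (Finset.filter_subset _ _) fun α _ hα => ?_
    have : c α = 0 := by
      by_contra hne
      exact hα (Finset.mem_filter.2 ⟨Finset.mem_univ _, hne⟩)
    rw [this, map_zero, zero_mul]
  have hCz := hL C hCmem hsum
  funext α0
  by_contra hne
  have hne' : c α0 ≠ 0 := hne
  have hα0 : α0 ∈ s := Finset.mem_filter.2 ⟨Finset.mem_univ _, hne'⟩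
  have h1 := hCz (key α0) (hbox α0 hα0)
  set P : MvPolynomial (Fin n × σ) K := ∑ α ∈ s.filter (fun α => key α = key α0),
    monomial (Finsupp.equivFunOnFinite.symm (mm α)) (c α) with hP
  have h2 : aeval V P = 0 := by
    rw [← h1, hP, map_sum, hC]
    refine Finset.sum_congr rfl fun α _ => ?_
    rw [aeval_monomial, Finsupp.prod_fintype _ _ fun i => pow_zero _]
    rfl
  have h3 : P = 0 := by
    have := (injective_iff_map_eq_zero (aeval (R := K) V)).1 hA P h2
    exact this
  have h4 : coeff (Finsupp.equivFunOnFinite.symm (mm α0)) P = c α0 := by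
    rw [hP, coeff_sum, Finset.sum_eq_single α0]
    · rw [coeff_monomial, if_pos rfl]
    · intro α hα hαne
      rw [coeff_monomial, if_neg]
      intro heq
      apply hαne
      have hm : mm α = mm α0 := Finsupp.equivFunOnFinite.symm.injective heq
      obtain ⟨hαs, hk⟩ := Finset.mem_filter.1 hα
      have g1 := hc α (Finset.mem_filter.1 hαs).2
      have g2 := hc α0 hne'
      refine Prod.ext ?_ (Subsingleton.elim _ _)
      funext j i
      refine Prod.ext ?_ ?_
      · apply Fin.ext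
        by_cases hi : i = a
        · rw [hi, (g1 j).1, (g2 j).1]
        · exact congrFun hk (j, ⟨i, hi⟩)
      · apply Fin.ext
        exact congrFun hm (j, i)
    · intro hcon
      refine (hcon ?_).elim
      rw [Finset.mem_filter]
      exact ⟨hα0, rfl⟩
  rw [h3, coeff_zero] at h4
  exact hne' h4.symm

theorem t : NZPP := by
  classical
  intro K _ _ σ _ _ W hW n M h0 a Ω _ _ _ _ x x0 e N hx hx0 hne hN hTW c hc0 hc hP
  have hchar : CharZero Ω := charZero_of_injective_algebraMap (algebraMap K Ω).injective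
  have hWL : ∀ i, (WL Ω (W i)).IsElliptic := fun i => by
    have := hW i
    infer_instance
  set X : Fin n × σ → Ω := fun h => xc (x h.1 h.2) with hX
  set V : Fin n × σ → Ω := wv W x x0 e with hV
  set L : Fin n → σ → Ω × Ω := fun j i => law (mapS Ω W i) (e j) false (xc (x j i)) (xc (x0 i))
    (ps (x j i) * ps (x0 i)) with hLdef
  have hlaw : ∀ j i, (L j i).1 ≠ 0 ∧ (L j i).2 = V (j, i) * (L j i).1 := by
    intro j i
    have := hWL i
    obtain ⟨-, h2, -⟩ := Pool.Agent.Helper12.SGB.th_ELAW Ω (WL Ω (W i)) (x j i) (x0 i) (e j)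
      two_ne_zero (hx j i) (hx0 i) (hne j i).1
    exact h2 (hne j i).2
  have hPeq : P0B W n M 1 e c (fun j i => xc (x j i)) (fun j i => ps (x j i))
      (fun i => xc (x0 i)) (fun i => ps (x0 i)) =
      (∏ j, ∏ i, (L j i).1 ^ M) * ∑ α : Ix σ n M 1 e, algebraMap K Ω (c α) *
      (∏ j, ∏ i, X (j, i) ^ (α.1 j i).1.val * V (j, i) ^ (α.1 j i).2.val) := by
    unfold P0B PB
    rw [Finset.mul_sum]
    refine Finset.sum_congr rfl fun α _ => ?_
    have e0 : ∏ i, xc (x0 i) ^ (α.2 i).val = 1 := by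
      refine Finset.prod_eq_one fun i _ => ?_
      have : (α.2 i).val = 0 := by
        have := (α.2 i).2
        omega
      rw [this, pow_zero]
    rw [e0, mul_one, mul_left_comm]
    congr 1
    rw [← Finset.prod_mul_distrib]
    refine Finset.prod_congr rfl fun j _ => ?_
    unfold blkB
    rw [← Finset.prod_mul_distrib]
    refine Finset.prod_congr rfl fun i _ => ?_
    have h1 := (hlaw j i).2
    have h3 : (α.1 j i).2.val ≤ M := Nat.lt_succ_iff.1 (α.1 j i).2.2
    show xc (x j i) ^ (α.1 j i).1.val * ((L j i).1 ^ (M - (α.1 j i).2.val) *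
      (L j i).2 ^ (α.1 j i).2.val) = (L j i).1 ^ M *
      (xc (x j i) ^ (α.1 j i).1.val * V (j, i) ^ (α.1 j i).2.val)
    rw [h1, mul_pow]
    have e2 : (L j i).1 ^ M = (L j i).1 ^ (M - (α.1 j i).2.val) * (L j i).1 ^ (α.1 j i).2.val := by
      rw [← pow_add, Nat.sub_add_cancel h3]
    rw [e2]
    ring
  rw [hPeq] at hP
  have hprod : ∏ j, ∏ i, (L j i).1 ^ M ≠ 0 :=
    Finset.prod_ne_zero_iff.2 fun j _ => Finset.prod_ne_zero_iff.2 fun i _ =>
      pow_ne_zero _ (hlaw j i).1
  have hsum := (mul_eq_zero.1 hP).resolve_left hprod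
  obtain ⟨h1, h2⟩ := hTW
  have hA : AlgebraicIndependent K V :=
    h2.comp (fun h : Fin n × σ => (⟨h, Finset.mem_univ h⟩ : {h : Fin n × σ // h ∈ Finset.univ}))
      fun _ _ h => congrArg Subtype.val h
  rw [Finset.coe_univ, Set.image_univ] at h1
  exact hc0 (alg a e N X V hN h1 hA c hc hsum)

end Pool.Agent.Helper91.TN.NZPP
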